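import Pool.Agent.R239.EA.I

/-!
# No local rule gives the bonds of a gauge invariant spin configuration: the deterministic core

The argument is the one of `Pool.Agent.R239.EA.I` (ground states of finite boxes), freed from ground
states: two arbitrary spin configurations `σ`, `τ`, belonging to the couplings `J` and to the
couplings changed on a half hyperplane.
-/

set_option autoImplicit false

open Finset MeasureTheory ProbabilityTheory Filter Topology

namespace Pool.Agent.U112.EA

open Pool.Agent.R239.EA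

variable {d : ℕ}

/-- the rule `F` (at the site `w`) fails for the bonds of `ρ` in the box of radius `n` around `w` -/
def Bad (F : (Fin d → ℤ) → ((Fin d → ℤ) × Fin d → ℝ) → (Fin d → ℤ) × Fin d → ℝ) (n : ℕ)
    (w : Fin d → ℤ) (J : (Fin d → ℤ) × Fin d → ℝ) (ρ : (Fin d → ℤ) → ℝ) : Prop :=
  ∃ e : (Fin d → ℤ) × Fin d, nrm (e.1 - w) ≤ n ∧ F w J e ≠ ρ e.1 * ρ (nx e)

/-- the box of radius `M` cut by a hyperplane -/
def HB (c : Fin d → ℤ) (i : Fin d) (M : ℕ) : Set (Fin d → ℤ) :=
  {v | v i ≤ c i ∧ v ∈ bx (0 : Fin d → ℤ) M}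

lemma HB_sub (c : Fin d → ℤ) (i : Fin d) (M : ℕ) : HB c i M ⊆ (bx (0 : Fin d → ℤ) M :
    Finset (Fin d → ℤ)) := fun _ hv => Finset.mem_coe.2 hv.2

/-- the rule at `w` depends on the absolute values of all couplings, and on the signs of the
couplings seen from the box of radius `r` around `w` -/
def LocS (F : (Fin d → ℤ) → ((Fin d → ℤ) × Fin d → ℝ) → (Fin d → ℤ) × Fin d → ℝ) (r : ℕ) : Prop :=
  ∀ (w : Fin d → ℤ) (J J' : (Fin d → ℤ) × Fin d → ℝ), (∀ e, |J e| = |J' e|) →
    (∀ e ∈ tb w r, J e = J' e) → ∀ e, F w J e = F w J' e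

lemma abs_flS (K : Set ((Fin d → ℤ) × Fin d)) (J : (Fin d → ℤ) × Fin d → ℝ)
    (e : (Fin d → ℤ) × Fin d) : |flS K J e| = |J e| := by
  unfold flS
  split_ifs
  · exact abs_neg _
  · rfl

/-- bad events for `σ` -/
def BadA (F : (Fin d → ℤ) → ((Fin d → ℤ) × Fin d → ℝ) → (Fin d → ℤ) × Fin d → ℝ) (n r M m : ℕ)
    (c : Fin d → ℤ) (i j : Fin d) (J : (Fin d → ℤ) × Fin d → ℝ) (σ : (Fin d → ℤ) → ℝ) : Prop :=
  ∃ l < m, Bad F n (ce n (pa c i j r) i l) (flS (dC (HB c i M)) J) (flip (HB c i M) σ) ∨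
    Bad F n (ce n (pa c i j r) j l) J σ ∨ Bad F n (ce n (pd c i j r) i l) J σ ∨
    Bad F n (ce n (pb c i j r) j l) J σ

/-- bad events for `τ`, in terms of the couplings of `τ` -/
def BadB (F : (Fin d → ℤ) → ((Fin d → ℤ) × Fin d → ℝ) → (Fin d → ℤ) × Fin d → ℝ) (n r m : ℕ)
    (c : Fin d → ℤ) (i j : Fin d) (J : (Fin d → ℤ) × Fin d → ℝ) (τ : (Fin d → ℤ) → ℝ) : Prop :=
  ∃ l < m, Bad F n (ce n (pa c i j r) i l) J τ ∨
    Bad F n (ce n (pa c i j r) j l) J τ ∨ Bad F n (ce n (pd c i j r) i l) J τ ∨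
    Bad F n (ce n (pb c i j r) j l) J τ

/-- the core -/
theorem core {J : (Fin d → ℤ) × Fin d → ℝ} {σ τ : (Fin d → ℤ) → ℝ}
    (hσpm : ∀ x, σ x = 1 ∨ σ x = -1) (hτpm : ∀ x, τ x = 1 ∨ τ x = -1) {M : ℕ} {c : Fin d → ℤ}
    {i j : Fin d} (hij : i ≠ j) {n r m : ℕ} (hnr : n ≤ r) (hm : 2 * r + 3 ≤ m * (2 * n + 1))
    (hM : nrm c + m * (2 * n + 1) + r + 1 ≤ M)
    {F : (Fin d → ℤ) → ((Fin d → ℤ) × Fin d → ℝ) → (Fin d → ℤ) × Fin d → ℝ} (hF : LocS F r) :
    BadA F n r M m c i j J σ ∨ BadB F n r m c i j (flS (Kh c i j) J) τ := by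
  classical
  by_contra hcon
  rw [not_or] at hcon
  obtain ⟨hA, hB⟩ := hcon
  unfold BadA at hA
  unfold BadB at hB
  push Not at hA hB
  have hji : j ≠ i := hij.symm
  set H : Set (Fin d → ℤ) := HB c i M with hH
  set K := Kh c i j with hK
  -- rules that do not fail
  have rule : ∀ (w : Fin d → ℤ) (J' : (Fin d → ℤ) × Fin d → ℝ) (ρ : (Fin d → ℤ) → ℝ),
      ¬ Bad F n w J' ρ → ∀ e : (Fin d → ℤ) × Fin d, nrm (e.1 - w) ≤ n →
      F w J' e = ρ e.1 * ρ (nx e) := by
    intro w J' ρ h1 e he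
    by_contra hne
    exact h1 ⟨e, he, hne⟩
  have hdc : ∀ e : (Fin d → ℤ) × Fin d, (e ∈ dC {x | σ x ≠ τ x} ↔
      σ e.1 * σ (nx e) ≠ τ e.1 * τ (nx e)) := edge_iff hσpm hτpm
  -- boxes which do not see the half hyperplane
  have hno : ∀ w : Fin d → ℤ, (∀ e ∈ tb w r, e ∉ K) → ¬ Bad F n w J σ →
      ¬ Bad F n w (flS K J) τ → ∀ e : (Fin d → ℤ) × Fin d, nrm (e.1 - w) ≤ n →
      (e ∈ dC {x | σ x ≠ τ x} ↔ e ∈ K) := by
    intro w hw h1 h2 e he
    have het : e ∈ tb w r := by
      rw [mem_tb, mem_bx]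
      exact Or.inl (he.trans hnr)
    have h3 := rule w J σ h1 e he
    have h4 := rule w _ τ h2 e he
    have h5 : F w J e = F w (flS K J) e := by
      refine hF w _ _ (fun f => (abs_flS K J f).symm) (fun f hf => ?_) e
      unfold flS
      rw [if_neg (hw f hf)]
    rw [hdc, ← h3, ← h4, h5]
    simp [hw e het]
  -- boxes on the bottom line
  have hyes : ∀ w : Fin d → ℤ, w j = c j - r → nrm (w - c) ≤ m * (2 * n + 1) →
      ¬ Bad F n w (flS K J) τ → ¬ Bad F n w (flS (dC H) J) (flip H σ) →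
      ∀ e : (Fin d → ℤ) × Fin d, nrm (e.1 - w) ≤ n → (e ∈ dC {x | σ x ≠ τ x} ↔ e ∈ K) := by
    intro w hwj hwc h1 h2 e he
    have het : e ∈ tb w r := by
      rw [mem_tb, mem_bx]
      exact Or.inl (he.trans hnr)
    have hbox : bx w (r + 1) ⊆ bx (0 : Fin d → ℤ) M := by
      apply bx_sub
      rw [sub_zero]
      have := nrm_add (w - c) c
      rw [sub_add_cancel] at this
      omega
    have hHK : ∀ f ∈ tb w r, f ∈ K ↔ f ∈ dC H := by
      intro f hf
      rw [see_low hij hwj f hf]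
      have hends := tb_ends hf
      have e1 := hbox hends.1
      have e2 := hbox hends.2
      unfold dC
      simp only [hH, HB, Set.mem_ofPred_eq, e1, e2, and_true]
      unfold nx
      by_cases hfi : f.2 = i
      · rw [hfi, Pi.add_apply, u_same]
        simp only [true_and]
        omega
      · rw [Pi.add_apply, u_ne (fun h => hfi h.symm)]
        simp [hfi]
    have h3 := rule w _ τ h1 e he
    have h4 := rule w _ _ h2 e he
    have h5 : F w (flS K J) e = F w (flS (dC H) J) e := by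
      refine hF w _ _ (fun f => (abs_flS K J f).trans (abs_flS _ J f).symm) (fun f hf => ?_) e
      unfold flS
      by_cases hfK : f ∈ K
      · rw [if_pos hfK, if_pos ((hHK f hf).1 hfK)]
      · rw [if_neg hfK, if_neg (fun h => hfK ((hHK f hf).2 h))]
    have h6 : τ e.1 * τ (nx e) = flip H σ e.1 * flip H σ (nx e) := by rw [← h3, h5, h4]
    rw [hdc, hHK e het, h6]
    have h7 := flip_dC (G := H) hσpm e
    constructor
    · intro h
      by_contra hc
      exact h (h7.2 hc).symm
    · intro h heq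
      exact (h7.1 heq.symm) h
  -- lines
  have hdiv : ∀ t : ℕ, t < m * (2 * n + 1) → t / (2 * n + 1) < m := fun t ht =>
    (Nat.div_lt_iff_lt_mul (by omega)).2 ht
  have hcoord : ∀ (s : Fin d → ℤ) (k a : Fin d) (l : ℕ), a ≠ k → ce n s k l a = s a := by
    intro s k a l ha
    unfold ce
    rw [Pi.add_apply, Pi.smul_apply, u_ne ha, smul_zero, add_zero]
  refine parity (c := c) hij hm (S := {x | σ x ≠ τ x}) ?_ ?_ ?_ ?_
  · intro t ht
    have hl := hdiv t ht
    refine hyes _ ?_ ?_ (hB _ hl).1 (hA _ hl).1 _ (near_ce n _ _ t)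
    · rw [hcoord _ _ _ _ hji, pa_j c r hij]
    · rw [nrm_le]
      intro a
      have hl' : ((t / (2 * n + 1) : ℕ) : ℤ) * (2 * n + 1) + (2 * n + 1) ≤ m * (2 * n + 1) := by
        have : (t / (2 * n + 1) + 1) * (2 * n + 1) ≤ m * (2 * n + 1) :=
          Nat.mul_le_mul_right _ hl
        have h2 : (t / (2 * n + 1)) * (2 * n + 1) + (2 * n + 1) ≤ m * (2 * n + 1) := by
          rw [add_mul, one_mul] at this; exact this
        exact_mod_cast h2
      have hl0 : (0 : ℤ) ≤ ((t / (2 * n + 1) : ℕ) : ℤ) * (2 * n + 1) := by positivity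
      have hm' : 2 * (r : ℤ) + 3 ≤ m * (2 * n + 1) := by exact_mod_cast hm
      have hn0 : (0 : ℤ) ≤ n := Nat.cast_nonneg n
      have hr0 : (0 : ℤ) ≤ r := Nat.cast_nonneg r
      push_cast
      by_cases hai : a = i
      · subst hai
        have e1 : (ce n (pa c a j r) a (t / (2 * n + 1)) - c) a =
            ((t / (2 * n + 1) : ℕ) : ℤ) * (2 * n + 1) + n - r - 1 := by
          unfold ce
          rw [Pi.sub_apply, Pi.add_apply, Pi.smul_apply, u_same, pa_i c r hij]
          simp only [smul_eq_mul]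
          ring
        rw [e1, abs_le]
        constructor <;> linarith
      · rw [Pi.sub_apply, hcoord _ _ _ _ hai]
        by_cases haj : a = j
        · subst haj
          rw [pa_j c r hij, abs_le]
          constructor <;> linarith
        · unfold pa
          simp only [Pi.sub_apply, Pi.smul_apply, u_ne hai, u_ne haj, smul_zero, sub_zero, sub_self,
            abs_zero]
          linarith
  · intro t ht
    have hl := hdiv t ht
    refine hno _ (see_left hij ?_) (hA _ hl).2.1 (hB _ hl).2.1 _ (near_ce n _ _ t)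
    rw [hcoord _ _ _ _ hij, pa_i c r hij]
  · intro t ht
    have hl := hdiv t ht
    refine hno _ (see_high hij ?_) (hA _ hl).2.2.1 (hB _ hl).2.2.1 _ (near_ce n _ _ t)
    rw [hcoord _ _ _ _ hji, pd_j c r hij]
  · intro t ht
    have hl := hdiv t ht
    refine hno _ (see_right hij ?_) (hA _ hl).2.2.2 (hB _ hl).2.2.2 _ (near_ce n _ _ t)
    rw [hcoord _ _ _ _ hij, pb_i c r hij]

/-! ### The boxes of the square -/

lemma ce_near {c : Fin d → ℤ} {i j : Fin d} (hij : i ≠ j) {n r m : ℕ}
    (hm : 2 * r + 3 ≤ m * (2 * n + 1)) {l : ℕ} (hl : l < m) :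
    nrm (ce n (pa c i j r) i l - c) ≤ m * (2 * n + 1) ∧
    nrm (ce n (pa c i j r) j l - c) ≤ m * (2 * n + 1) ∧
    nrm (ce n (pd c i j r) i l - c) ≤ m * (2 * n + 1) ∧
    nrm (ce n (pb c i j r) j l - c) ≤ m * (2 * n + 1) := by
  have hji : j ≠ i := hij.symm
  have hl' : (l : ℤ) * (2 * n + 1) + (2 * n + 1) ≤ m * (2 * n + 1) := by
    have : (l + 1) * (2 * n + 1) ≤ m * (2 * n + 1) := Nat.mul_le_mul_right _ hl
    have h2 : l * (2 * n + 1) + (2 * n + 1) ≤ m * (2 * n + 1) := by
      rw [add_mul, one_mul] at this; exact this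
    exact_mod_cast h2
  have hl0 : (0 : ℤ) ≤ (l : ℤ) * (2 * n + 1) := by positivity
  have hm' : 2 * (r : ℤ) + 3 ≤ m * (2 * n + 1) := by exact_mod_cast hm
  have hn0 : (0 : ℤ) ≤ n := Nat.cast_nonneg n
  have hr0 : (0 : ℤ) ≤ r := Nat.cast_nonneg r
  have key : ∀ (s : Fin d → ℤ) (k : Fin d),
      (∀ a, s a = c a ∨ (s a = c a - r - 1) ∨ (s a = c a - r) ∨ (a ≠ k ∧ s a = c a + r + 1) ∨
        (a ≠ k ∧ s a = c a + r + 2)) →
      nrm (ce n s k l - c) ≤ m * (2 * n + 1) := by
    intro s k hs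
    rw [nrm_le]
    intro a
    push_cast
    by_cases hak : a = k
    · subst hak
      have e1 : (ce n s a l - c) a = s a + ((l : ℤ) * (2 * n + 1) + n) - c a := by
        unfold ce
        rw [Pi.sub_apply, Pi.add_apply, Pi.smul_apply, u_same]
        simp only [smul_eq_mul]
        ring
      rw [e1, abs_le]
      rcases hs a with h | h | h | h | h
      · constructor <;> linarith
      · constructor <;> linarith
      · constructor <;> linarith
      · exact absurd rfl h.1
      · exact absurd rfl h.1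
    · have e1 : (ce n s k l - c) a = s a - c a := by
        unfold ce
        rw [Pi.sub_apply, Pi.add_apply, Pi.smul_apply, u_ne hak, smul_zero, add_zero]
      rw [e1, abs_le]
      rcases hs a with h | h | h | h | h
      · constructor <;> linarith
      · constructor <;> linarith
      · constructor <;> linarith
      · constructor <;> linarith [h.2]
      · constructor <;> linarith [h.2]
  have hpa : ∀ a, pa c i j r a = c a ∨ pa c i j r a = c a - r - 1 ∨ pa c i j r a = c a - r := by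
    intro a
    by_cases hai : a = i
    · subst hai; right; left; exact pa_i c r hij
    · by_cases haj : a = j
      · subst haj; right; right; exact pa_j c r hij
      · left
        simp only [pa, Pi.sub_apply, Pi.smul_apply, u_ne hai, u_ne haj, smul_zero, sub_zero]
  refine ⟨key _ _ fun a => ?_, key _ _ fun a => ?_, key _ _ fun a => ?_, key _ _ fun a => ?_⟩
  · rcases hpa a with h | h | h
    · exact Or.inl h
    · exact Or.inr (Or.inl h)
    · exact Or.inr (Or.inr (Or.inl h))
  · rcases hpa a with h | h | h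
    · exact Or.inl h
    · exact Or.inr (Or.inl h)
    · exact Or.inr (Or.inr (Or.inl h))
  · by_cases hai : a = i
    · subst hai
      refine Or.inr (Or.inl ?_)
      simp only [pd, Pi.sub_apply, Pi.add_apply, Pi.smul_apply, u_same, u_ne hij, smul_eq_mul]
      ring
    · by_cases haj : a = j
      · subst haj
        exact Or.inr (Or.inr (Or.inr (Or.inl ⟨hai, by rw [pd_j c r hij]⟩)))
      · left
        simp only [pd, Pi.sub_apply, Pi.add_apply, Pi.smul_apply, u_ne hai, u_ne haj, smul_zero,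
          sub_zero, add_zero]
  · by_cases hai : a = i
    · subst hai
      exact Or.inr (Or.inr (Or.inr (Or.inr ⟨hij, by rw [pb_i c r hij]⟩)))
    · by_cases haj : a = j
      · subst haj
        refine Or.inr (Or.inr (Or.inl ?_))
        simp only [pb, Pi.sub_apply, Pi.add_apply, Pi.smul_apply, u_same, u_ne hji, smul_eq_mul]
        ring
      · left
        simp only [pb, Pi.sub_apply, Pi.add_apply, Pi.smul_apply, u_ne hai, u_ne haj, smul_zero,
          sub_zero, add_zero]

end Pool.Agent.U112.EA
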