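import Pool.Agent.U112.EA.Meas

/-!
# No local rule: gauge covariant relations, infinite volume, coding radius
-/

set_option autoImplicit false

open Finset MeasureTheory ProbabilityTheory Filter Topology

namespace Pool.Agent.U112.EA

open Pool.Agent.R239.EA

variable {d : ℕ}

variable (μ : Measure ℝ) [IsProbabilityMeasure μ]

/-- **No local rule, relations.** -/
theorem rel (hsym : μ.map (fun x => -x) = μ)
    {R : ((Fin d → ℤ) × Fin d → ℝ) → ((Fin d → ℤ) → ℝ) → Prop}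
    (hpm : ∀ J σ, R J σ → ∀ x, σ x = 1 ∨ σ x = -1) (hex : ∀ᵐ J ∂(Lw μ d), ∃ σ, R J σ) {M : ℕ}
    (hg : ∀ G : Set (Fin d → ℤ), G ⊆ (bx (0 : Fin d → ℤ) M : Finset (Fin d → ℤ)) →
      ∀ J σ, R J σ → R (flS (dC G) J) (Pool.Agent.R239.EA.flip G σ)) {c : Fin d → ℤ}
    {i j : Fin d} (hij : i ≠ j) {n r m : ℕ} (hnr : n ≤ r) (hm : 2 * r + 3 ≤ m * (2 * n + 1))
    (hM : nrm c + m * (2 * n + 1) + r + 1 ≤ M)
    {F : (Fin d → ℤ) → ((Fin d → ℤ) × Fin d → ℝ) → (Fin d → ℤ) × Fin d → ℝ} (hF : LocS F r)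
    (q : ENNReal) (hq : ∀ w : Fin d → ℤ, nrm (w - c) ≤ m * (2 * n + 1) →
      Lw μ d {J | ∃ σ, R J σ ∧ Bad F n w J σ} ≤ q) :
    1 ≤ ((8 * m : ℕ) : ENNReal) * q := by
  classical
  set E : (Fin d → ℤ) → Set ((Fin d → ℤ) × Fin d → ℝ) := fun w => {J | ∃ σ, R J σ ∧ Bad F n w J σ}
    with hE
  set K := Kh c i j with hK
  set H := dC (HB c i M) with hH
  set A : ℕ → Set ((Fin d → ℤ) × Fin d → ℝ) := fun l =>
    (flS K ⁻¹' E (ce n (pa c i j r) i l) ∪ flS H ⁻¹' E (ce n (pa c i j r) i l)) ∪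
    ((E (ce n (pa c i j r) j l) ∪ flS K ⁻¹' E (ce n (pa c i j r) j l)) ∪
    ((E (ce n (pd c i j r) i l) ∪ flS K ⁻¹' E (ce n (pd c i j r) i l)) ∪
    (E (ce n (pb c i j r) j l) ∪ flS K ⁻¹' E (ce n (pb c i j r) j l)))) with hA
  have hex2 : ∀ᵐ J ∂(Lw μ d), ∃ τ, R (flS K J) τ :=
    (flS_law (d := d) μ hsym K).quasiMeasurePreserving.ae hex
  have hae : ∀ᵐ J ∂(Lw μ d), J ∈ ⋃ l ∈ Finset.range m, A l := by
    filter_upwards [hex, hex2] with J h1 h2
    obtain ⟨σ, hσ⟩ := h1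
    obtain ⟨τ, hτ⟩ := h2
    simp only [Set.mem_iUnion, Finset.mem_range, exists_prop]
    rcases core (hpm _ _ hσ) (hpm _ _ hτ) hij hnr hm hM hF with h | h
    · obtain ⟨l, hl, h⟩ := h
      refine ⟨l, hl, ?_⟩
      rcases h with h | h | h | h
      · exact Or.inl (Or.inr ⟨_, hg _ (HB_sub c i M) _ _ hσ, h⟩)
      · exact Or.inr (Or.inl (Or.inl ⟨_, hσ, h⟩))
      · exact Or.inr (Or.inr (Or.inl (Or.inl ⟨_, hσ, h⟩)))
      · exact Or.inr (Or.inr (Or.inr (Or.inl ⟨_, hσ, h⟩)))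
    · obtain ⟨l, hl, h⟩ := h
      refine ⟨l, hl, ?_⟩
      rcases h with h | h | h | h
      · exact Or.inl (Or.inl ⟨_, hτ, h⟩)
      · exact Or.inr (Or.inl (Or.inr ⟨_, hτ, h⟩))
      · exact Or.inr (Or.inr (Or.inl (Or.inr ⟨_, hτ, h⟩)))
      · exact Or.inr (Or.inr (Or.inr (Or.inr ⟨_, hτ, h⟩)))
  have hAl : ∀ l < m, Lw μ d (A l) ≤ 8 * q := by
    intro l hl
    obtain ⟨n1, n2, n3, n4⟩ := ce_near hij hm hl
    have h1 : Lw μ d (E (ce n (pa c i j r) i l)) ≤ q := hq _ n1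
    have h2 : Lw μ d (E (ce n (pa c i j r) j l)) ≤ q := hq _ n2
    have h3 : Lw μ d (E (ce n (pd c i j r) i l)) ≤ q := hq _ n3
    have h4 : Lw μ d (E (ce n (pb c i j r) j l)) ≤ q := hq _ n4
    have k1 := (flS_le μ hsym K (E (ce n (pa c i j r) i l))).trans h1
    have k1' := (flS_le μ hsym H (E (ce n (pa c i j r) i l))).trans h1
    have k2 := (flS_le μ hsym K (E (ce n (pa c i j r) j l))).trans h2
    have k3 := (flS_le μ hsym K (E (ce n (pd c i j r) i l))).trans h3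
    have k4 := (flS_le μ hsym K (E (ce n (pb c i j r) j l))).trans h4
    calc Lw μ d (A l) ≤ (q + q) + ((q + q) + ((q + q) + (q + q))) := by
          refine (measure_union_le _ _).trans (add_le_add ?_ ?_)
          · exact (measure_union_le _ _).trans (add_le_add k1 k1')
          · refine (measure_union_le _ _).trans (add_le_add ?_ ?_)
            · exact (measure_union_le _ _).trans (add_le_add h2 k2)
            · refine (measure_union_le _ _).trans (add_le_add ?_ ?_)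
              · exact (measure_union_le _ _).trans (add_le_add h3 k3)
              · exact (measure_union_le _ _).trans (add_le_add h4 k4)
      _ = 8 * q := by ring
  calc (1 : ENNReal) = Lw μ d Set.univ := measure_univ.symm
    _ ≤ Lw μ d (⋃ l ∈ Finset.range m, A l) := by
        refine measure_mono_ae ?_
        filter_upwards [hae] with J hJ _
        exact hJ
    _ ≤ ∑ l ∈ Finset.range m, Lw μ d (A l) := measure_biUnion_finset_le _ _
    _ ≤ ∑ l ∈ Finset.range m, 8 * q :=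
        Finset.sum_le_sum fun l hl => hAl l (Finset.mem_range.1 hl)
    _ = ((8 * m : ℕ) : ENNReal) * q := by
        simp only [Finset.sum_const, Finset.card_range, nsmul_eq_mul]
        push_cast
        ring

/-! ### From bounds for all centres to the existence of a centre -/

lemma exists_w {p : (Fin d → ℤ) → ENNReal} {c : Fin d → ℤ} {T m : ℕ} (hm : 0 < m)
    (h : ∀ q : ENNReal, (∀ w : Fin d → ℤ, nrm (w - c) ≤ T → p w ≤ q) →
      1 ≤ ((8 * m : ℕ) : ENNReal) * q) :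
    ∃ w : Fin d → ℤ, nrm (w - c) ≤ T ∧ 1 / (8 * (m : ENNReal)) ≤ p w := by
  by_contra hcon
  push Not at hcon
  have hm0 : (8 * (m : ENNReal)) ≠ 0 := by
    simp only [ne_eq, mul_eq_zero, not_or]
    exact ⟨by norm_num, by exact_mod_cast hm.ne'⟩
  have hmt : (8 * (m : ENNReal)) ≠ ⊤ := by finiteness
  have hsup : (bx c T).sup p < 1 / (8 * (m : ENNReal)) := by
    rw [Finset.sup_lt_iff]
    · intro w hw
      exact hcon w (mem_bx.1 hw)
    · rw [bot_eq_zero]
      exact ENNReal.div_pos one_ne_zero hmt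
  have h1 := h ((bx c T).sup p) fun w hw => Finset.le_sup (mem_bx.2 hw)
  have h2 : ((8 * m : ℕ) : ENNReal) * (bx c T).sup p < 1 := by
    rw [mul_comm]
    rw [ENNReal.lt_div_iff_mul_lt (Or.inl hm0) (Or.inl hmt)] at hsup
    push_cast
    exact hsup
  exact absurd h1 (not_le.2 h2)

/-! ### Infinite volume -/

lemma GA.gauge {J : (Fin d → ℤ) × Fin d → ℝ} {σ : (Fin d → ℤ) → ℝ} (h : GA J σ)
    (G : Set (Fin d → ℤ)) : GA (flS (dC G) J) (Pool.Agent.R239.EA.flip G σ) :=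
  fun n => (h n).gauge G

lemma GA.shift {J : (Fin d → ℤ) × Fin d → ℝ} {σ : (Fin d → ℤ) → ℝ} (h : GA J σ)
    (w : Fin d → ℤ) : GA (shw w J) (fun x => σ (x + w)) :=
  fun n => GI_shift (GA.at h w n)

/-- the rule fails in the box of radius `n` around the origin -/
def Bad0 (f : ((Fin d → ℤ) × Fin d → ℝ) → (Fin d → ℤ) × Fin d → ℝ) (n : ℕ)
    (J : (Fin d → ℤ) × Fin d → ℝ) (ρ : (Fin d → ℤ) → ℝ) : Prop :=
  ∃ e : (Fin d → ℤ) × Fin d, nrm e.1 ≤ n ∧ f J e ≠ ρ e.1 * ρ (nx e)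

/-- the rule at the origin is local -/
def Loc0 (f : ((Fin d → ℤ) × Fin d → ℝ) → (Fin d → ℤ) × Fin d → ℝ) (r : ℕ) : Prop :=
  ∀ J J' : (Fin d → ℤ) × Fin d → ℝ, (∀ e, |J e| = |J' e|) →
    (∀ e ∈ tb 0 r, J e = J' e) → ∀ e, f J e = f J' e

/-- the translated rule -/
def tr (f : ((Fin d → ℤ) × Fin d → ℝ) → (Fin d → ℤ) × Fin d → ℝ) (w : Fin d → ℤ)
    (J : (Fin d → ℤ) × Fin d → ℝ) (e : (Fin d → ℤ) × Fin d) : ℝ := f (shw w J) (e.1 - w, e.2)

lemma tr_loc {f : ((Fin d → ℤ) × Fin d → ℝ) → (Fin d → ℤ) × Fin d → ℝ} {r : ℕ}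
    (hf : Loc0 f r) : LocS (tr f) r := by
  intro w J J' h1 h2 e
  unfold tr
  refine hf _ _ (fun e => h1 _) (fun e he => h2 _ ?_) _
  rw [mem_tb] at he ⊢
  rw [nx_shift]
  simp only [mem_bx] at he ⊢
  simpa using he

lemma tr_bad {f : ((Fin d → ℤ) × Fin d → ℝ) → (Fin d → ℤ) × Fin d → ℝ} {n : ℕ} {w : Fin d → ℤ}
    {J : (Fin d → ℤ) × Fin d → ℝ} {σ : (Fin d → ℤ) → ℝ} (h : Bad (tr f) n w J σ) :
    Bad0 f n (shw w J) (fun x => σ (x + w)) := by
  obtain ⟨e, he, h1⟩ := h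
  refine ⟨(e.1 - w, e.2), he, ?_⟩
  have h2 : nx ((e.1 - w, e.2) : (Fin d → ℤ) × Fin d) + w = nx e := by
    rw [← nx_shift]; simp
  simp only
  rw [h2, sub_add_cancel]
  exact h1

/-- **No local rule in infinite volume** -/
theorem inf_vol (hd : 2 ≤ d) (hat : ∀ x, μ {x} = 0) (hsym : μ.map (fun x => -x) = μ)
    {n r m : ℕ} (hnr : n ≤ r) (hm : 2 * r + 3 ≤ m * (2 * n + 1))
    {f : ((Fin d → ℤ) × Fin d → ℝ) → (Fin d → ℤ) × Fin d → ℝ} (hf : Loc0 f r) :
    1 / (8 * (m : ENNReal)) ≤ Lw μ d {J | ∃ σ, GA J σ ∧ Bad0 f n J σ} := by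
  have hm0 : 0 < m := by
    rcases Nat.eq_zero_or_pos m with h | h
    · subst h; omega
    · exact h
  set i : Fin d := ⟨0, by omega⟩ with hi
  set j : Fin d := ⟨1, by omega⟩ with hj
  have hij : i ≠ j := by
    intro h
    have := congrArg Fin.val h
    simp [hi, hj] at this
  obtain ⟨w, -, hw⟩ := exists_w (c := (0 : Fin d → ℤ)) (T := m * (2 * n + 1)) hm0 fun q hq =>
    rel (R := GA) (F := tr f) (c := 0) μ hsym (fun J σ h => (h 0).1)
      (by
        filter_upwards [gn_ae (d := d) μ hat] with J hJ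
        exact exists_GA hd hJ) (fun G _ J σ h => GA.gauge h G) hij hnr hm le_rfl (tr_loc hf) q hq
  refine hw.trans ?_
  have h1 := Measure.le_map_apply (μ := Lw μ d) (shw_law μ w).measurable.aemeasurable
    {J | ∃ σ, GA J σ ∧ Bad0 f n J σ}
  rw [(shw_law μ w).map_eq] at h1
  refine (measure_mono ?_).trans h1
  rintro J ⟨σ, h2, h3⟩
  exact ⟨_, GA.shift h2 w, tr_bad h3⟩

/-! ### The coding radius -/

/-- **The coding radius** -/
theorem coding (hd : 2 ≤ d) (hat : ∀ x, μ {x} = 0) (hsym : μ.map (fun x => -x) = μ)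
    {n : ℕ} {f : ((Fin d → ℤ) × Fin d → ℝ) → (Fin d → ℤ) × Fin d → ℝ}
    {R : ((Fin d → ℤ) × Fin d → ℝ) → ℕ∞}
    (hR : ∀ (r : ℕ) (J J' : (Fin d → ℤ) × Fin d → ℝ), R J ≤ r → (∀ e, |J e| = |J' e|) →
      (∀ e ∈ tb 0 r, J e = J' e) → ∀ e : (Fin d → ℤ) × Fin d, nrm e.1 ≤ n → f J e = f J' e)
    (hf : ∀ᵐ J ∂(Lw μ d), ∀ σ, GA J σ → ¬ Bad0 f n J σ) {r m : ℕ} (hnr : n ≤ r)
    (hm : 2 * r + 3 ≤ m * (2 * n + 1)) :
    1 / (8 * (m : ENNReal)) ≤ Lw μ d {J | (r : ℕ∞) < R J} := by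
  classical
  -- the rule of range `r`
  set P : ((Fin d → ℤ) × Fin d → ℝ) → ((Fin d → ℤ) × Fin d → ℝ) → Prop := fun J J' =>
    R J' ≤ r ∧ (∀ e, |J' e| = |J e|) ∧ ∀ e ∈ tb 0 r, J' e = J e with hP
  set g : ((Fin d → ℤ) × Fin d → ℝ) → (Fin d → ℤ) × Fin d → ℝ := fun J e =>
    if h : ∃ J', P J J' then f h.choose e else 0 with hgdef
  have hloc : Loc0 g r := by
    intro J J' h1 h2 e
    have hPP : P J = P J' := by
      funext J''
      simp only [hP, eq_iff_iff]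
      constructor
      · rintro ⟨k1, k2, k3⟩
        exact ⟨k1, fun e => (k2 e).trans (h1 e), fun e he => (k3 e he).trans (h2 e he)⟩
      · rintro ⟨k1, k2, k3⟩
        exact ⟨k1, fun e => (k2 e).trans (h1 e).symm, fun e he => (k3 e he).trans (h2 e he).symm⟩
    simp only [hgdef, hPP]
  have h1 := inf_vol μ hd hat hsym hnr hm hloc
  refine h1.trans ?_
  refine measure_mono_ae ?_
  filter_upwards [hf] with J hJ
  rintro ⟨σ, hσ, e, he, hne⟩
  show (r : ℕ∞) < R J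
  by_contra hc
  rw [not_lt] at hc
  have hPJ : ∃ J', P J J' := ⟨J, hc, fun _ => rfl, fun _ _ => rfl⟩
  apply hJ σ hσ
  refine ⟨e, he, ?_⟩
  have h2 : g J e = f J e := by
    simp only [hgdef, dif_pos hPJ]
    obtain ⟨k1, k2, k3⟩ := hPJ.choose_spec
    exact hR r _ _ k1 k2 k3 e he
  rw [← h2]
  exact hne

/-- the coding radius has infinite mean -/
theorem coding_mean (hd : 2 ≤ d) (hat : ∀ x, μ {x} = 0) (hsym : μ.map (fun x => -x) = μ)
    {n : ℕ} {f : ((Fin d → ℤ) × Fin d → ℝ) → (Fin d → ℤ) × Fin d → ℝ}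
    {R : ((Fin d → ℤ) × Fin d → ℝ) → ℕ∞} (hRm : ∀ r : ℕ, MeasurableSet {J | R J ≤ r})
    (hR : ∀ (r : ℕ) (J J' : (Fin d → ℤ) × Fin d → ℝ), R J ≤ r → (∀ e, |J e| = |J' e|) →
      (∀ e ∈ tb 0 r, J e = J' e) → ∀ e : (Fin d → ℤ) × Fin d, nrm e.1 ≤ n → f J e = f J' e)
    (hf : ∀ᵐ J ∂(Lw μ d), ∀ σ, GA J σ → ¬ Bad0 f n J σ) :
    ∫⁻ J, (R J : ENNReal) ∂(Lw μ d) = ⊤ := by
  have hbd : ∀ r : ℕ, n ≤ r → 1 / (8 * ((2 * r + 3 : ℕ) : ENNReal)) ≤
      Lw μ d {J | (r : ℕ∞) < R J} := fun r hr =>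
    coding μ hd hat hsym hR hf hr (Nat.le_mul_of_pos_right _ (by omega))
  -- the layers
  have hpt : ∀ (N : ℕ) (x : ℕ∞), (∑ r ∈ Finset.range N, if (r : ℕ∞) < x then (1 : ENNReal) else 0)
      ≤ (x : ENNReal) := by
    intro N x
    induction x using ENat.recTopCoe with
    | top => simp
    | coe k =>
      have h1 : (∑ r ∈ Finset.range N, if (r : ℕ∞) < (k : ℕ∞) then (1 : ENNReal) else 0) =
          (((Finset.range N).filter fun r => r < k).card : ENNReal) := by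
        rw [Finset.sum_ite, Finset.sum_const_zero, add_zero, Finset.sum_const, nsmul_eq_mul,
          mul_one]
        simp only [Nat.cast_lt]
      rw [h1]
      have h2 : ((Finset.range N).filter fun r => r < k).card ≤ k := by
        calc _ ≤ (Finset.range k).card := Finset.card_le_card (by
              intro a ha
              simp only [Finset.mem_filter, Finset.mem_range] at ha ⊢
              exact ha.2)
          _ = k := Finset.card_range k
      have h3 : (((Finset.range N).filter fun r => r < k).card : ENNReal) ≤ (k : ENNReal) := by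
        exact_mod_cast h2
      simpa using h3
  have hms : ∀ r : ℕ, MeasurableSet {J | (r : ℕ∞) < R J} := by
    intro r
    have h1 : {J | (r : ℕ∞) < R J} = {J | R J ≤ r}ᶜ := by
      ext J
      simp
    rw [h1]
    exact (hRm r).compl
  have hsum : ∀ N : ℕ, ∑ r ∈ Finset.range N, Lw μ d {J | (r : ℕ∞) < R J} ≤
      ∫⁻ J, (R J : ENNReal) ∂(Lw μ d) := by
    intro N
    calc ∑ r ∈ Finset.range N, Lw μ d {J | (r : ℕ∞) < R J}
        = ∑ r ∈ Finset.range N, ∫⁻ J, (if (r : ℕ∞) < R J then (1 : ENNReal) else 0) ∂(Lw μ d) := by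
          refine Finset.sum_congr rfl fun r _ => ?_
          rw [← lintegral_indicator_one (hms r)]
          refine lintegral_congr fun J => ?_
          simp [Set.indicator_apply]
      _ = ∫⁻ J, ∑ r ∈ Finset.range N, (if (r : ℕ∞) < R J then (1 : ENNReal) else 0) ∂(Lw μ d) := by
          rw [lintegral_finsetSum]
          intro r _
          exact Measurable.ite (hms r) measurable_const measurable_const
      _ ≤ _ := lintegral_mono fun J => hpt N _
  by_contra hne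
  have hlow : ∀ N : ℕ, ∑ r ∈ Finset.range N, (if n ≤ r then
      1 / (8 * ((2 * r + 3 : ℕ) : ENNReal)) else 0) ≤ ∫⁻ J, (R J : ENNReal) ∂(Lw μ d) := by
    intro N
    refine (Finset.sum_le_sum fun r _ => ?_).trans (hsum N)
    split_ifs with h
    · exact hbd r h
    · exact bot_le
  -- the harmonic series
  set L := (∫⁻ J, (R J : ENNReal) ∂(Lw μ d)).toReal with hL
  have hreal : ∀ N : ℕ, ∑ r ∈ Finset.range N, (if n ≤ r then
      1 / (8 * (2 * (r : ℝ) + 3)) else 0) ≤ L := by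
    intro N
    have h1 := ENNReal.toReal_mono hne (hlow N)
    rw [ENNReal.toReal_sum] at h1
    · refine le_trans (le_of_eq (Finset.sum_congr rfl fun r _ => ?_)) h1
      split_ifs with h
      · rw [ENNReal.toReal_div, ENNReal.toReal_mul, ENNReal.toReal_one, ENNReal.toReal_ofNat,
          ENNReal.toReal_natCast]
        push_cast
        rfl
      · simp
    · intro r _
      split_ifs with h
      · refine ENNReal.div_ne_top ENNReal.one_ne_top ?_
        simp only [ne_eq, mul_eq_zero, not_or]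
        exact ⟨by norm_num, by exact_mod_cast (by omega : 2 * r + 3 ≠ 0)⟩
      · exact ENNReal.zero_ne_top
  have hnn : ∀ r : ℕ, (0 : ℝ) ≤ (if n ≤ r then 1 / (8 * (2 * (r : ℝ) + 3)) else 0) := by
    intro r
    split_ifs
    · positivity
    · exact le_rfl
  have hs : Summable fun r : ℕ => (if n ≤ r then 1 / (8 * (2 * (r : ℝ) + 3)) else 0 : ℝ) :=
    summable_of_sum_range_le hnn hreal
  have hs2 : Summable fun r : ℕ => (1 / ((r : ℝ) + 1)) := by
    have h2 : Summable fun r : ℕ => 24 * (if n ≤ r then 1 / (8 * (2 * (r : ℝ) + 3)) else 0 : ℝ) :=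
      hs.mul_left 24
    rw [← summable_nat_add_iff n] at h2 ⊢
    refine Summable.of_nonneg_of_le (fun r => by positivity) (fun r => ?_) h2
    rw [if_pos (Nat.le_add_left n r)]
    have h3 : (0 : ℝ) < ((r + n : ℕ) : ℝ) + 1 := by positivity
    have h4 : (0 : ℝ) < 8 * (2 * ((r + n : ℕ) : ℝ) + 3) := by positivity
    rw [mul_one_div, div_le_div_iff₀ h3 h4]
    have h5 : (0 : ℝ) ≤ ((r + n : ℕ) : ℝ) := Nat.cast_nonneg _
    nlinarith
  have h6 := (summable_nat_add_iff (f := fun r : ℕ => 1 / (r : ℝ)) 1).1 (by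
    simpa using hs2)
  exact Real.not_summable_one_div_natCast h6

end Pool.Agent.U112.EA
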