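import Pool.Agent.U112.EA.Core

/-!
# No local rule: gauge invariant laws of couplings and spins, with hints
-/

set_option autoImplicit false

open Finset MeasureTheory ProbabilityTheory Filter Topology

namespace Pool.Agent.U112.EA

open Pool.Agent.R239.EA

variable {d : ℕ}

/-! ### Gauge transformations -/

lemma flS_insert {x : Fin d → ℤ} {G : Set (Fin d → ℤ)} (hx : x ∉ G)
    (J : (Fin d → ℤ) × Fin d → ℝ) :
    flS (dC (insert x G)) J = flS (dC {x}) (flS (dC G) J) := by
  funext e
  unfold flS dC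
  simp only [Set.mem_ofPred_eq, Set.mem_insert_iff, Set.mem_singleton_iff]
  by_cases h1 : e.1 = x <;> by_cases h2 : nx e = x <;> by_cases h3 : e.1 ∈ G <;>
    by_cases h4 : nx e ∈ G <;> simp_all

lemma flip_insert {x : Fin d → ℤ} {G : Set (Fin d → ℤ)} (hx : x ∉ G) (σ : (Fin d → ℤ) → ℝ) :
    flip (insert x G) σ = flip {x} (flip G σ) := by
  funext y
  unfold Pool.Agent.R239.EA.flip
  simp only [Set.mem_insert_iff, Set.mem_singleton_iff]
  by_cases h1 : y = x <;> by_cases h2 : y ∈ G <;> simp_all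

lemma flS_empty (J : (Fin d → ℤ) × Fin d → ℝ) : flS (dC (∅ : Set (Fin d → ℤ))) J = J := by
  funext e
  unfold flS dC
  simp

lemma flip_empty (σ : (Fin d → ℤ) → ℝ) : flip ∅ σ = σ := by
  funext e
  unfold Pool.Agent.R239.EA.flip
  simp

lemma flS_meas (T : Set ((Fin d → ℤ) × Fin d)) : Measurable (flS T) := by
  classical
  refine measurable_pi_lambda _ fun e => ?_
  unfold flS
  by_cases h : e ∈ T
  · simp only [h, if_true]; fun_prop
  · simp only [h, if_false]; fun_prop

lemma flip_meas (G : Set (Fin d → ℤ)) : Measurable (flip G) := by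
  classical
  refine measurable_pi_lambda _ fun e => ?_
  unfold Pool.Agent.R239.EA.flip
  by_cases h : e ∈ G
  · simp only [h, if_true]; fun_prop
  · simp only [h, if_false]; fun_prop

variable {U : Type*} [MeasurableSpace U]

/-- the gauge transformation of couplings and spins; the hints are unchanged -/
noncomputable def gau (G : Set (Fin d → ℤ))
    (z : (((Fin d → ℤ) × Fin d → ℝ) × U) × ((Fin d → ℤ) → ℝ)) :
    (((Fin d → ℤ) × Fin d → ℝ) × U) × ((Fin d → ℤ) → ℝ) :=
  ((flS (dC G) z.1.1, z.1.2), flip G z.2)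

lemma gau_meas (G : Set (Fin d → ℤ)) : Measurable (gau (U := U) G) :=
  (((flS_meas _).comp (measurable_fst.comp measurable_fst)).prodMk
    (measurable_snd.comp measurable_fst)).prodMk ((flip_meas G).comp measurable_snd)

lemma gau_insert {x : Fin d → ℤ} {G : Set (Fin d → ℤ)} (hx : x ∉ G) :
    gau (U := U) (insert x G) = gau {x} ∘ gau G := by
  funext z
  unfold gau
  simp only [Function.comp_apply]
  rw [flS_insert hx, flip_insert hx]

lemma gau_empty : gau (U := U) (∅ : Set (Fin d → ℤ)) = id := by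
  funext z
  unfold gau
  rw [flS_empty, flip_empty]
  rfl

lemma gau_law {Q : Measure ((((Fin d → ℤ) × Fin d → ℝ) × U) × ((Fin d → ℤ) → ℝ))}
    {S : Set (Fin d → ℤ)} (hg : ∀ x ∈ S, Q.map (gau {x}) = Q) (G : Finset (Fin d → ℤ))
    (hG : ∀ x ∈ G, x ∈ S) : Q.map (gau (G : Set (Fin d → ℤ))) = Q := by
  classical
  induction G using Finset.induction_on with
  | empty => rw [Finset.coe_empty, gau_empty, Measure.map_id]
  | insert x G hx ih =>
    rw [Finset.coe_insert, gau_insert (by simpa using hx),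
      ← Measure.map_map (gau_meas _) (gau_meas _),
      ih fun y hy => hG y (Finset.mem_insert_of_mem hy)]
    exact hg x (hG x (Finset.mem_insert_self _ _))

/-- the rule with hints fails for the bonds in the box of radius `n` around `w` -/
def BS (F : (Fin d → ℤ) → ((Fin d → ℤ) × Fin d → ℝ) × U → (Fin d → ℤ) × Fin d → ℝ) (n : ℕ)
    (w : Fin d → ℤ) : Set ((((Fin d → ℤ) × Fin d → ℝ) × U) × ((Fin d → ℤ) → ℝ)) :=
  {z | Bad (fun w J => F w (J, z.1.2)) n w z.1.1 z.2}

lemma BS_meas {F : (Fin d → ℤ) → ((Fin d → ℤ) × Fin d → ℝ) × U → (Fin d → ℤ) × Fin d → ℝ}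
    (hF : ∀ w e, Measurable fun x => F w x e) (n : ℕ) (w : Fin d → ℤ) :
    MeasurableSet (BS F n w) := by
  have h : BS F n w = ⋃ e : (Fin d → ℤ) × Fin d, ⋃ _ : nrm (e.1 - w) ≤ n,
      {z | F w z.1 e ≠ z.2 e.1 * z.2 (nx e)} := by
    ext z
    simp only [BS, Bad, Set.mem_ofPred_eq, Set.mem_iUnion, exists_prop, Prod.mk.eta]
  rw [h]
  refine MeasurableSet.iUnion fun e => MeasurableSet.iUnion fun _ => ?_
  refine (measurableSet_eq_fun ((hF w e).comp measurable_fst) ?_).compl
  exact ((measurable_pi_apply _).comp measurable_snd).mul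
    ((measurable_pi_apply _).comp measurable_snd)

variable (μ : Measure ℝ) [IsProbabilityMeasure μ]

/-- **No local rule, general form.** -/
theorem general (hsym : μ.map (fun x => -x) = μ) {ρ : Measure U} [IsProbabilityMeasure ρ]
    {Q : Measure ((((Fin d → ℤ) × Fin d → ℝ) × U) × ((Fin d → ℤ) → ℝ))} [IsProbabilityMeasure Q]
    (hfst : Q.fst = (Lw μ d).prod ρ) (hpm : ∀ᵐ z ∂Q, ∀ x, z.2 x = 1 ∨ z.2 x = -1) {M : ℕ}
    (hg : ∀ x ∈ bx (0 : Fin d → ℤ) M, Q.map (gau {x}) = Q) {c : Fin d → ℤ}
    {i j : Fin d} (hij : i ≠ j) {n r m : ℕ} (hnr : n ≤ r) (hm : 2 * r + 3 ≤ m * (2 * n + 1))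
    (hM : nrm c + m * (2 * n + 1) + r + 1 ≤ M)
    {F : (Fin d → ℤ) → ((Fin d → ℤ) × Fin d → ℝ) × U → (Fin d → ℤ) × Fin d → ℝ}
    (hloc : ∀ s : U, LocS (fun w J => F w (J, s)) r) (hF : ∀ w e, Measurable fun x => F w x e)
    (q : ENNReal) (hq : ∀ w : Fin d → ℤ, nrm (w - c) ≤ m * (2 * n + 1) → Q (BS F n w) ≤ q) :
    1 ≤ ((8 * m : ℕ) : ENNReal) * q := by
  classical
  set K := Kh c i j with hK
  set H := HB c i M with hH
  set pr : ((Fin d → ℤ) × Fin d → ℝ) × U → ((Fin d → ℤ) × Fin d → ℝ) × U :=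
    fun x => (flS K x.1, x.2) with hpr
  have hφ : MeasurePreserving pr ((Lw μ d).prod ρ) ((Lw μ d).prod ρ) := by
    have := (flS_law (d := d) μ hsym K).prod (MeasurePreserving.id ρ)
    exact this
  -- the two events
  set A : Set ((((Fin d → ℤ) × Fin d → ℝ) × U) × ((Fin d → ℤ) → ℝ)) :=
    ⋃ l ∈ Finset.range m, (gau H ⁻¹' BS F n (ce n (pa c i j r) i l) ∪
      (BS F n (ce n (pa c i j r) j l) ∪ (BS F n (ce n (pd c i j r) i l) ∪
        BS F n (ce n (pb c i j r) j l)))) with hA
  set B : Set ((((Fin d → ℤ) × Fin d → ℝ) × U) × ((Fin d → ℤ) → ℝ)) :=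
    ⋃ l ∈ Finset.range m, (BS F n (ce n (pa c i j r) i l) ∪
      (BS F n (ce n (pa c i j r) j l) ∪ (BS F n (ce n (pd c i j r) i l) ∪
        BS F n (ce n (pb c i j r) j l)))) with hB
  have hAm : MeasurableSet A := by
    refine Finset.measurableSet_biUnion _ fun l _ => ?_
    exact (gau_meas _ (BS_meas hF n _)).union ((BS_meas hF n _).union
      ((BS_meas hF n _).union (BS_meas hF n _)))
  have hBm : MeasurableSet B := by
    refine Finset.measurableSet_biUnion _ fun l _ => ?_
    exact (BS_meas hF n _).union ((BS_meas hF n _).union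
      ((BS_meas hF n _).union (BS_meas hF n _)))
  have hQA : Q A ≤ ((4 * m : ℕ) : ENNReal) * q := by
    have hgH : Q.map (gau H) = Q := by
      have h1 : (H : Set (Fin d → ℤ)).Finite :=
        (bx (0 : Fin d → ℤ) M).finite_toSet.subset (HB_sub c i M)
      have h2 := gau_law (S := {x | x ∈ bx (0 : Fin d → ℤ) M}) hg h1.toFinset
        (fun x hx => HB_sub c i M (h1.mem_toFinset.1 hx))
      rwa [h1.coe_toFinset] at h2
    calc Q A ≤ ∑ l ∈ Finset.range m, Q (gau H ⁻¹' BS F n (ce n (pa c i j r) i l) ∪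
      (BS F n (ce n (pa c i j r) j l) ∪ (BS F n (ce n (pd c i j r) i l) ∪
        BS F n (ce n (pb c i j r) j l)))) := measure_biUnion_finset_le _ _
      _ ≤ ∑ l ∈ Finset.range m, 4 * q := by
        refine Finset.sum_le_sum fun l hl => ?_
        obtain ⟨n1, n2, n3, n4⟩ := ce_near hij hm (Finset.mem_range.1 hl)
        have k1 : Q (gau H ⁻¹' BS F n (ce n (pa c i j r) i l)) ≤ q := by
          rw [← Measure.map_apply (gau_meas _) (BS_meas hF n _), hgH]
          exact hq _ n1
        calc _ ≤ q + (q + (q + q)) := by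
              refine (measure_union_le _ _).trans (add_le_add k1 ?_)
              refine (measure_union_le _ _).trans (add_le_add (hq _ n2) ?_)
              exact (measure_union_le _ _).trans (add_le_add (hq _ n3) (hq _ n4))
          _ = 4 * q := by ring
      _ = ((4 * m : ℕ) : ENNReal) * q := by
        simp only [Finset.sum_const, Finset.card_range, nsmul_eq_mul]
        push_cast
        ring
  have hQB : Q B ≤ ((4 * m : ℕ) : ENNReal) * q := by
    calc Q B ≤ ∑ l ∈ Finset.range m, Q (BS F n (ce n (pa c i j r) i l) ∪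
      (BS F n (ce n (pa c i j r) j l) ∪ (BS F n (ce n (pd c i j r) i l) ∪
        BS F n (ce n (pb c i j r) j l)))) := measure_biUnion_finset_le _ _
      _ ≤ ∑ l ∈ Finset.range m, 4 * q := by
        refine Finset.sum_le_sum fun l hl => ?_
        obtain ⟨n1, n2, n3, n4⟩ := ce_near hij hm (Finset.mem_range.1 hl)
        calc _ ≤ q + (q + (q + q)) := by
              refine (measure_union_le _ _).trans (add_le_add (hq _ n1) ?_)
              refine (measure_union_le _ _).trans (add_le_add (hq _ n2) ?_)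
              exact (measure_union_le _ _).trans (add_le_add (hq _ n3) (hq _ n4))
          _ = 4 * q := by ring
      _ = ((4 * m : ℕ) : ENNReal) * q := by
        simp only [Finset.sum_const, Finset.card_range, nsmul_eq_mul]
        push_cast
        ring
  -- disintegration
  set κ := Q.condKernel with hκ
  have hdis : ∀ S, MeasurableSet S → Q S = ∫⁻ x, κ x (Prod.mk x ⁻¹' S) ∂((Lw μ d).prod ρ) := by
    intro S hS
    conv_lhs => rw [← Q.disintegrate κ]
    rw [Measure.compProd_apply hS, hfst]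
  -- the spins are `± 1`
  set Pm : Set ((Fin d → ℤ) → ℝ) := {σ | ∀ x, σ x = 1 ∨ σ x = -1} with hPm
  have hPmm : MeasurableSet Pm := by
    have : Pm = ⋂ x : Fin d → ℤ, ({σ | σ x = 1} ∪ {σ | σ x = -1}) := by
      ext σ
      simp [hPm]
    rw [this]
    refine MeasurableSet.iInter fun x => ?_
    exact (measurableSet_eq_fun (measurable_pi_apply x) measurable_const).union
      (measurableSet_eq_fun (measurable_pi_apply x) measurable_const)
  have hk : ∀ᵐ x ∂((Lw μ d).prod ρ), κ x Pmᶜ = 0 := by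
    have h1 : Q (Prod.snd ⁻¹' Pmᶜ) = 0 := by
      rw [ae_iff] at hpm
      refine measure_mono_null ?_ hpm
      intro z hz
      exact hz
    rw [hdis _ (measurable_snd hPmm.compl)] at h1
    have h2 : ∀ x : ((Fin d → ℤ) × Fin d → ℝ) × U,
        Prod.mk x ⁻¹' (Prod.snd ⁻¹' Pmᶜ : Set ((((Fin d → ℤ) × Fin d → ℝ) × U) ×
          ((Fin d → ℤ) → ℝ))) = Pmᶜ := fun x => rfl
    simp only [h2] at h1
    rw [lintegral_eq_zero_iff (κ.measurable_coe hPmm.compl)] at h1
    exact h1
  have hk2 : ∀ᵐ x ∂((Lw μ d).prod ρ), κ (pr x) Pmᶜ = 0 := hφ.quasiMeasurePreserving.ae hk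
  -- the pointwise inequality
  have hpt : ∀ᵐ x ∂((Lw μ d).prod ρ),
      1 ≤ κ x (Prod.mk x ⁻¹' A) + κ (pr x) (Prod.mk (pr x) ⁻¹' B) := by
    filter_upwards [hk, hk2] with x h1 h2
    by_cases hcase : Pm ⊆ Prod.mk x ⁻¹' A
    · have h3 : 1 ≤ κ x (Prod.mk x ⁻¹' A) := by
        have h4 : κ x Pm = 1 := by
          have := prob_compl_eq_zero_iff (μ := κ x) hPmm
          exact this.1 h1
        rw [← h4]
        exact measure_mono hcase
      exact h3.trans le_self_add
    · have hsub : Pm ⊆ Prod.mk (pr x) ⁻¹' B := by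
        intro τ hτ
        rw [Set.not_subset] at hcase
        obtain ⟨σ, hσ, hσA⟩ := hcase
        have hc := core (J := x.1) (σ := σ) (τ := τ) hσ hτ hij hnr hm hM (hloc x.2)
        rcases hc with hc | hc
        · exfalso
          apply hσA
          obtain ⟨l, hl, h⟩ := hc
          show (x, σ) ∈ A
          rw [hA]
          simp only [Set.mem_iUnion, Finset.mem_range, exists_prop]
          refine ⟨l, hl, ?_⟩
          rcases h with h | h | h | h
          · exact Or.inl h
          · exact Or.inr (Or.inl h)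
          · exact Or.inr (Or.inr (Or.inl h))
          · exact Or.inr (Or.inr (Or.inr h))
        · obtain ⟨l, hl, h⟩ := hc
          show (pr x, τ) ∈ B
          rw [hB]
          simp only [Set.mem_iUnion, Finset.mem_range, exists_prop]
          refine ⟨l, hl, ?_⟩
          rcases h with h | h | h | h
          · exact Or.inl h
          · exact Or.inr (Or.inl h)
          · exact Or.inr (Or.inr (Or.inl h))
          · exact Or.inr (Or.inr (Or.inr h))
      have h3 : 1 ≤ κ (pr x) (Prod.mk (pr x) ⁻¹' B) := by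
        have h4 : κ (pr x) Pm = 1 := by
          have := prob_compl_eq_zero_iff (μ := κ (pr x)) hPmm
          exact this.1 h2
        rw [← h4]
        exact measure_mono hsub
      exact h3.trans le_add_self
  have hint : (1 : ENNReal) ≤ Q A + Q B := by
    have e2 : Q B = ∫⁻ x, κ (pr x) (Prod.mk (pr x) ⁻¹' B) ∂((Lw μ d).prod ρ) := by
      rw [hdis B hBm]
      rw [hφ.lintegral_comp (f := fun x => κ x (Prod.mk x ⁻¹' B))]
      exact Kernel.measurable_kernel_prodMk_left hBm
    rw [hdis A hAm, e2, ← lintegral_add_left (Kernel.measurable_kernel_prodMk_left hAm)]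
    calc (1 : ENNReal) = ∫⁻ _, 1 ∂((Lw μ d).prod ρ) := by
          rw [lintegral_const, measure_univ, mul_one]
      _ ≤ _ := lintegral_mono_ae hpt
  calc (1 : ENNReal) ≤ Q A + Q B := hint
    _ ≤ ((4 * m : ℕ) : ENNReal) * q + ((4 * m : ℕ) : ENNReal) * q := add_le_add hQA hQB
    _ = ((8 * m : ℕ) : ENNReal) * q := by
      push_cast
      ring

end Pool.Agent.U112.EA
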